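import Pool.Agent.H73.TS.Targets

/-!
Counting.
-/

open MeasureTheory Set Metric Filter
open scoped ENNReal Topology

namespace Pool.Agent.H59.TS

open Pool.Agent.H73.TS

theorem isLin {d : ℕ} (e : E d) : IsLinearMap ℝ (fun z : E d => inner ℝ e z) :=
  ⟨fun a b => inner_add_right e a b, fun a b => by rw [inner_smul_right, smul_eq_mul]⟩

theorem cnt (hSUP : T_SUP) (hONE : T_ONE) (hMON : T_MON) : T_CNT := by
  classical
  intro d F
  induction F using Finset.strongInduction with
  | H F ih =>
  intro Q hd hd8 hQc hQcv hFQ hQne hsep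
  rcases Finset.eq_empty_or_nonempty F with rfl | ⟨x, hx⟩
  · simp only [Finset.card_empty, Nat.cast_zero]
    exact integral_nonneg fun x => (Real.exp_pos _).le
  · by_cases hone : ∃ y ∈ F, y ≠ x
    · obtain ⟨y, hy, hyx⟩ := hone
      obtain ⟨e, c, he, hxy, hall⟩ := hsep x hx y hy hyx.symm
      set F1 := F.filter (fun z => inner ℝ e z ≤ c - 1 / 2) with hF1
      set F2 := F.filter (fun z => c + 1 / 2 ≤ inner ℝ e z) with hF2
      have hcard : F.card = F1.card + F2.card := by
        rw [← Finset.card_union_of_disjoint]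
        · congr 1
          ext z
          rw [Finset.mem_union, hF1, hF2, Finset.mem_filter, Finset.mem_filter]
          constructor
          · intro hz
            rcases hall z hz with h | h
            · exact Or.inl ⟨hz, h⟩
            · exact Or.inr ⟨hz, h⟩
          · rintro (h | h)
            · exact h.1
            · exact h.1
        · rw [Finset.disjoint_left]
          intro z h1 h2
          rw [hF1, Finset.mem_filter] at h1
          rw [hF2, Finset.mem_filter] at h2
          linarith [h1.2, h2.2]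
      have hne : F1.Nonempty ∧ F2.Nonempty := by
        rcases hxy with h | h
        · exact ⟨⟨x, Finset.mem_filter.2 ⟨hx, h.1⟩⟩, ⟨y, Finset.mem_filter.2 ⟨hy, h.2⟩⟩⟩
        · exact ⟨⟨y, Finset.mem_filter.2 ⟨hy, h.1⟩⟩, ⟨x, Finset.mem_filter.2 ⟨hx, h.2⟩⟩⟩
      have hs1 : F1 ⊂ F := by
        have hsub : F1 ⊆ F := Finset.filter_subset _ _
        refine hsub.ssubset_of_ne fun h => ?_
        have h1 := Finset.card_pos.2 hne.2
        have h2 := congrArg Finset.card h
        omega
      have hs2 : F2 ⊂ F := by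
        have hsub : F2 ⊆ F := Finset.filter_subset _ _
        refine hsub.ssubset_of_ne fun h => ?_
        have h1 := Finset.card_pos.2 hne.1
        have h2 := congrArg Finset.card h
        omega
      have hcont : Continuous (fun z : E d => inner ℝ e z) := by fun_prop
      have hcl1 : IsClosed {z : E d | inner ℝ e z ≤ c - 1 / 2} :=
        isClosed_le hcont continuous_const
      have hcl2 : IsClosed {z : E d | c + 1 / 2 ≤ inner ℝ e z} :=
        isClosed_le continuous_const hcont
      have hm1 : (F1 : Set (E d)) ⊆ Q ∩ {z | inner ℝ e z ≤ c - 1 / 2} := by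
        intro z hz
        have hz' := Finset.mem_filter.1 (Finset.mem_coe.1 hz)
        exact ⟨hFQ (Finset.mem_coe.2 hz'.1), hz'.2⟩
      have hm2 : (F2 : Set (E d)) ⊆ Q ∩ {z | c + 1 / 2 ≤ inner ℝ e z} := by
        intro z hz
        have hz' := Finset.mem_filter.1 (Finset.mem_coe.1 hz)
        exact ⟨hFQ (Finset.mem_coe.2 hz'.1), hz'.2⟩
      have hn1 : (Q ∩ {z | inner ℝ e z ≤ c - 1 / 2}).Nonempty :=
        (Finset.coe_nonempty.2 hne.1).mono hm1
      have hn2 : (Q ∩ {z | c + 1 / 2 ≤ inner ℝ e z}).Nonempty :=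
        (Finset.coe_nonempty.2 hne.2).mono hm2
      have h1 := ih F1 hs1 (Q ∩ {z | inner ℝ e z ≤ c - 1 / 2}) hd hd8 (hQc.inter_right hcl1)
        (hQcv.inter (convex_halfSpace_le (isLin e) _)) hm1 hn1 (by
          intro z hz w hw hzw
          obtain ⟨e', c', h3, h4, h5⟩ := hsep z (hs1.1 hz) w (hs1.1 hw) hzw
          exact ⟨e', c', h3, h4, fun v hv => h5 v (hs1.1 hv)⟩)
      have h2 := ih F2 hs2 (Q ∩ {z | c + 1 / 2 ≤ inner ℝ e z}) hd hd8 (hQc.inter_right hcl2)
        (hQcv.inter (convex_halfSpace_ge (isLin e) _)) hm2 hn2 (by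
          intro z hz w hw hzw
          obtain ⟨e', c', h3, h4, h5⟩ := hsep z (hs2.1 hz) w (hs2.1 hw) hzw
          exact ⟨e', c', h3, h4, fun v hv => h5 v (hs2.1 hv)⟩)
      have h3 := hSUP d Q e c hd hd8 hQc hQcv he hn1 hn2
      rw [hcard]
      push_cast
      linarith
    · push Not at hone
      have hF : F = {x} := by
        ext y
        rw [Finset.mem_singleton]
        exact ⟨fun hy => hone y hy, fun hy => by rw [hy]; exact hx⟩
      rw [hF, Finset.card_singleton, Nat.cast_one, ← hONE d x]
      refine hMON d {x} Q (singleton_nonempty x) ?_ hQc.isBounded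
      rw [singleton_subset_iff]
      exact hFQ (Finset.mem_coe.2 hx)

end Pool.Agent.H59.TS
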