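import Pool.Agent.H73.TS.Targets

/-!
Marginals of dominated positive continuous functions.
-/

open MeasureTheory Set Metric Filter
open scoped ENNReal Topology

namespace Pool.Agent.H59.TS

open Pool.Agent.H73.TS

theorem gauss_int (m : ℕ) (C k : ℝ) (hk : 0 < k) :
    Integrable (fun y : E m => C * Real.exp (-(k * ‖y‖ ^ 2))) := by
  have h := (GaussianFourier.integrable_cexp_neg_mul_sq_norm_add (V := E m) (b := (k : ℂ))
    (by simpa using hk) 0 0).norm
  have h2 : Integrable (fun y : E m => Real.exp (-(k * ‖y‖ ^ 2))) := by
    refine h.congr (Filter.Eventually.of_forall fun y => ?_)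
    simp only [Complex.norm_exp]
    congr 1
    simp only [zero_mul, add_zero, Complex.mul_re, Complex.neg_re, Complex.ofReal_re,
      Complex.neg_im, Complex.ofReal_im, neg_zero, ← Complex.ofReal_pow]
    ring
  exact h2.const_mul C

theorem ma (hFUB : T_FUB) : T_MA := by
  rintro n f hf hpos ⟨C, k, hk, hC⟩
  have hC0 : 0 < C := by
    have h1 := hC 0
    have h2 := hpos 0
    simp at h1
    linarith
  have hG := gauss_int n C k hk
  have hG' := gauss_int (n + 1) C k hk
  have hb : ∀ (u : ℝ) (y : E n), f (cons u y) ≤ C * Real.exp (-(k * ‖y‖ ^ 2)) := by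
    intro u y
    refine (hC (cons u y)).trans ?_
    rw [norm_cons_sq]
    refine mul_le_mul_of_nonneg_left (Real.exp_le_exp.2 ?_) hC0.le
    nlinarith [sq_nonneg u]
  have hcont : ∀ u : ℝ, Continuous (fun y : E n => f (cons u y)) := fun u =>
    hf.comp (continuous_cons.comp (by fun_prop : Continuous fun y : E n => (u, y)))
  have hcont' : ∀ y : E n, Continuous (fun u : ℝ => f (cons u y)) := fun y =>
    hf.comp (continuous_cons.comp (by fun_prop : Continuous fun u : ℝ => (u, y)))
  have hint : ∀ u : ℝ, Integrable (fun y : E n => f (cons u y)) := fun u =>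
    hG.mono' (hcont u).aestronglyMeasurable (Filter.Eventually.of_forall fun y => by
      rw [Real.norm_eq_abs, abs_of_pos (hpos _)]
      exact hb u y)
  have hfint : Integrable f := hG'.mono' hf.aestronglyMeasurable
    (Filter.Eventually.of_forall fun x => by
      rw [Real.norm_eq_abs, abs_of_pos (hpos _)]
      exact hC x)
  obtain ⟨e, he, hmp⟩ := hFUB n
  have hcomp : Integrable (fun p : ℝ × E n => f (cons p.1 p.2)) := by
    have h1 := (hmp.integrable_comp_emb (g := f) e.measurableEmbedding).2 hfint
    refine h1.congr (Filter.Eventually.of_forall fun p => ?_)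
    simp only [Function.comp_apply, he]
  have heq : ∫ p : ℝ × E n, f (cons p.1 p.2) = ∫ x, f x := by
    rw [← hmp.integral_comp e.measurableEmbedding f]
    simp only [he]
  rw [Measure.volume_eq_prod] at hcomp heq
  refine ⟨?_, ?_, ?_, hint, ?_, ?_⟩
  · refine continuous_of_dominated (fun u => (hcont u).aestronglyMeasurable)
      (fun u => Filter.Eventually.of_forall fun y => ?_) hG
      (Filter.Eventually.of_forall fun y => hcont' y)
    rw [Real.norm_eq_abs, abs_of_pos (hpos _)]
    exact hb u y
  · intro u
    rw [integral_pos_iff_support_of_nonneg (fun y => (hpos _).le) (hint u)]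
    have : Function.support (fun y : E n => f (cons u y)) = univ := by
      ext y
      simp [(hpos (cons u y)).ne']
    rw [this]
    exact isOpen_univ.measure_pos volume univ_nonempty
  · exact hcomp.integral_prod_left
  · rw [← heq, integral_prod _ hcomp]
  · exact fun u => ⟨C, k, hk, hb u⟩

end Pool.Agent.H59.TS
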